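import Pool.Agent.MP_3ee8cb_gt.DNSI.Int

/-! A map that is almost everywhere short in the mean and coarsely isometric along geodesics
preserves the lengths of geodesics. -/

namespace Pool.Agent.MP_3ee8cb_gt.PXL

open Set MeasureTheory Function Metric Filter Topology

theorem sub_nat {ψ : ℝ → ℝ} (h : ∀ s t, 0 ≤ s → 0 ≤ t → ψ (s + t) ≤ ψ s + ψ t) {t : ℝ}
    (ht : 0 ≤ t) (n : ℕ) : ψ ((n + 1 : ℝ) * t) ≤ (n + 1 : ℝ) * ψ t := by
  induction n with
  | zero => simp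
  | succ n ih =>
    have := h ((n + 1 : ℝ) * t) t (by positivity) ht
    rw [show ((n + 1 : ℕ) + 1 : ℝ) * t = (n + 1 : ℝ) * t + t by push_cast; ring]
    push_cast
    linarith

theorem seq (T : ℝ) (hT : 0 < T) : Tendsto (fun n : ℕ => T / (n + 1 : ℝ)) atTop (𝓝[>] 0) :=
  tendsto_nhdsWithin_iff.2 ⟨by
    simpa [div_eq_mul_inv] using
      (tendsto_one_div_add_atTop_nhds_zero_nat (𝕜 := ℝ)).const_mul T,
    .of_forall fun n => mem_Ioi.2 (by positivity)⟩

open DN DN.SI CR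

variable [Dim]

theorem len {m : MF} {Γ : Type} [Group Γ] [MulAction Γ V] {O : Γ → V → V ≃ₗᵢ[ℝ] V} (h : m.OK)
    (j : m.Jac) (A : Act m Γ O) (fd : FdP dm Γ) (δ : V → V → ℝ) (c L : ℝ)
    (cδ : Continuous fun q : V × V => δ q.1 q.2) (z0 : ∀ x, δ x x = 0)
    (tri : ∀ x y z, δ x z ≤ δ x y + δ y z) (inv : ∀ (γ : Γ) x y, δ (γ • x) (γ • y) = δ x y)
    (low : ∀ (z : V × V) T, 0 ≤ T → ‖z.2‖ < 1 → T * ‖z.2‖ - c ≤ δ z.1 (m.Z T z).1)
    (lip : ∀ (z : V × V) t, 0 ≤ t → t ≤ 1 → ‖z.2‖ < 1 → |δ z.1 (m.Z t z).1| ≤ L * t)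
    (der : ∀ᵐ x : V, ∃ B : V →L[ℝ] V,
      (∀ a, Tendsto (fun t => δ x (m.Z t (x, a)).1 / t) (𝓝[>] 0) (𝓝 ‖B a‖)) ∧
      (∫ a in ball (0 : V) 1, ‖B a‖ ^ 2 < ∫ a in ball (0 : V) 1, ‖a‖ ^ 2 ∨ ∀ a, ‖B a‖ = ‖a‖))
    (x a : V) : δ x (m.Z 1 (x, a)).1 = ‖a‖ := by
  obtain ⟨_, fd⟩ := fd
  obtain ⟨D, mD, bD, nD, cov, un⟩ := fd x
  have mD' : MeasurableSet (D ×ˢ (univ : Set V)) := mD.prod .univ
  set ν := (nu m).restrict D with hν
  set β := (volume : Measure V).restrict (ball 0 1) with hβ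
  have el0 : (mu m).restrict (D ×ˢ univ) = ((nu m).prod volume).restrict (D ×ˢ ball 0 1) := by
    rw [mu, Measure.restrict_restrict mD', prod_inter_prod, inter_univ, univ_inter]
  have el : (mu m).restrict (D ×ˢ univ) = ν.prod β := by rw [el0, ← Measure.prod_restrict]
  have fin : IsFiniteMeasure ν := by
    refine isFiniteMeasure_restrict.2 (ne_of_lt ?_)
    have : IsLocallyFiniteMeasure (nu m) := .withDensity_ofReal (cdet h)
    exact bD.measure_lt_top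
  have fb : IsFiniteMeasure β := isFiniteMeasure_restrict.2 measure_ball_lt_top.ne
  have av : ∀ (u : V × V → ℝ), (∀ γ z, u (ac O γ z) = u z) → ∀ t,
      ∫ z, u (m.Z t z) ∂ν.prod β = ∫ z, u z ∂ν.prod β := fun u hu t => by
    rw [← el]
    exact avg (mu m) (ac O) (fun x => by simp only [ac, one_smul, A.one])
      (fun γ δ x => by simp only [ac, mul_smul, A.mul]) (mp_ac A) _ mD'
      (fun x => (cov x.1).imp fun γ hγ => ⟨hγ, trivial⟩) (fun γ x h1 h2 => un γ x.1 h1.1 h2.1)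
      (fl h t) (mp_fl h j t) (fun γ x => A.flow γ t x) u hu
  have mem : ∀ᵐ z ∂ν.prod β, z ∈ D ×ˢ ball (0 : V) 1 := by
    rw [← el, el0]
    exact ae_restrict_mem (mD.prod measurableSet_ball)
  have sh : ∀ᵐ z ∂ν.prod β, ‖z.2‖ < 1 := mem.mono fun z hz => mem_ball_zero_iff.1 hz.2
  have int : ∀ u : V × V → ℝ, Continuous u → Integrable u (ν.prod β) := fun u hu => by
    obtain ⟨C, hC⟩ := (bD.isCompact_closure.prod
      (isCompact_closedBall (0 : V) 1)).exists_bound_of_continuousOn hu.continuousOn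
    exact .of_bound hu.aestronglyMeasurable C
      (mem.mono fun z hz => hC z ⟨subset_closure hz.1, ball_subset_closedBall hz.2⟩)
  set ρ : ℝ → V × V → ℝ := fun t z => δ z.1 (m.Z t z).1 with hρ
  have cρ : ∀ t, Continuous (ρ t) := fun t =>
    cδ.comp (continuous_fst.prodMk (cZ h t).continuous.fst)
  have iρ : ∀ t γ z, ρ t (ac O γ z) = ρ t z := fun t γ z => by
    simp only [hρ, ac, A.flow, inv]
  have nρ : ∀ (γ : Γ) (z : V × V), ‖(ac O γ z).2‖ = ‖z.2‖ := fun γ z => (O γ z.1).norm_map z.2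
  have sρ : ∀ s t z, ρ (s + t) z ≤ ρ s z + ρ t (m.Z s z) := fun s t z => by
    simp only [hρ]
    rw [add_comm s t, h.add]
    exact tri _ _ _
  have cn : Continuous fun z : V × V => ‖z.2‖ := continuous_snd.norm
  have sub : ∀ f : ℝ → V × V → ℝ, (∀ t, Continuous (f t)) → (∀ t γ z, f t (ac O γ z) = f t z) →
      (∀ s t z, f (s + t) z ≤ f s z + f t (m.Z s z)) → ∀ t, 0 ≤ t → ∀ n : ℕ,
      ∫ z, f ((n + 1 : ℝ) * t) z ∂ν.prod β ≤ (n + 1 : ℝ) * ∫ z, f t z ∂ν.prod β :=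
    fun f cf jf sf t ht n => sub_nat (ψ := fun t => ∫ z, f t z ∂ν.prod β) (fun s t _ _ => by
      have i2 := int (fun z => f t (m.Z s z)) ((cf t).comp (cZ h s).continuous)
      rw [← av (f t) (jf t) s, ← integral_add (int _ (cf s)) i2]
      exact integral_mono (int _ (cf _)) ((int _ (cf s)).add i2) (sf s t)) ht n
  -- the lower bound
  have lo : ∀ t, 0 ≤ t → t * ∫ z, ‖z.2‖ ^ 2 ∂ν.prod β ≤ ∫ z, ‖z.2‖ * ρ t z ∂ν.prod β := by
    intro t ht
    have s1 := sub (fun t z => ‖z.2‖ * ρ t z) (fun t => cn.mul (cρ t))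
      (fun t γ z => by rw [iρ, nρ]) (fun s t z => by
        rw [j.norm, ← mul_add]
        exact mul_le_mul_of_nonneg_left (sρ s t z) (norm_nonneg _)) t ht
    have s2 : ∀ T, 0 ≤ T → T * ∫ z, ‖z.2‖ ^ 2 ∂ν.prod β - c * ∫ z, ‖z.2‖ ∂ν.prod β ≤
        ∫ z, ‖z.2‖ * ρ T z ∂ν.prod β := fun T hT => by
      rw [← integral_const_mul, ← integral_const_mul,
        ← integral_sub (int _ (by fun_prop)) (int _ (by fun_prop))]
      refine integral_mono_ae (int _ (by fun_prop)) (int _ (cn.mul (cρ T))) (sh.mono fun z hz => ?_)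
      have := mul_le_mul_of_nonneg_left (low z T hT hz) (norm_nonneg z.2)
      simp only [hρ]
      nlinarith
    by_contra hc
    rw [not_le] at hc
    obtain ⟨n, hn⟩ := exists_nat_gt ((c * ∫ z, ‖z.2‖ ∂ν.prod β) /
      (t * ∫ z, ‖z.2‖ ^ 2 ∂ν.prod β - ∫ z, ‖z.2‖ * ρ t z ∂ν.prod β))
    rw [div_lt_iff₀ (sub_pos.2 hc)] at hn
    have := (s2 _ (by positivity)).trans (s1 n)
    nlinarith
  -- the derivative
  have der' : ∀ᵐ x ∂ν, ∃ B : V →L[ℝ] V,
      (∀ a, Tendsto (fun t => δ x (m.Z t (x, a)).1 / t) (𝓝[>] 0) (𝓝 ‖B a‖)) ∧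
      (∫ a, ‖B a‖ ^ 2 ∂β < ∫ a, ‖a‖ ^ 2 ∂β ∨ ∀ a, ‖B a‖ = ‖a‖) :=
    ae_restrict_of_ae ((withDensity_absolutelyContinuous _ _).ae_le der)
  obtain ⟨B, hB⟩ : ∃ B : V → V →L[ℝ] V, ∀ᵐ x ∂ν,
      (∀ a, Tendsto (fun t => δ x (m.Z t (x, a)).1 / t) (𝓝[>] 0) (𝓝 ‖B x a‖)) ∧
      (∫ a, ‖B x a‖ ^ 2 ∂β < ∫ a, ‖a‖ ^ 2 ∂β ∨ ∀ a, ‖B x a‖ = ‖a‖) := by
    classical
    exact ⟨fun x => Classical.epsilon _, der'.mono fun x hx => Classical.epsilon_spec hx⟩
  have hB' : ∀ᵐ z ∂ν.prod β, Tendsto (fun t => ρ t z / t) (𝓝[>] 0) (𝓝 ‖B z.1 z.2‖) :=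
    (Measure.quasiMeasurePreserving_fst.ae hB).mono fun z hz => hz.1 z.2
  have dct : ∀ (T : ℝ) (G : V × V → ℝ → ℝ), 0 < T → T ≤ 1 →
      Continuous (fun p : (V × V) × ℝ => G p.1 p.2) →
      (∃ C, ∀ z r, ‖z.2‖ < 1 → |r| ≤ L → |G z r| ≤ C) →
      Integrable (fun z => G z ‖B z.1 z.2‖) (ν.prod β) ∧
      Tendsto (fun n : ℕ => ∫ z, G z (ρ (T / (n + 1 : ℝ)) z / (T / (n + 1 : ℝ))) ∂ν.prod β) atTop
        (𝓝 (∫ z, G z ‖B z.1 z.2‖ ∂ν.prod β)) := by
    rintro T G T0 T1 cG ⟨C, hC⟩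
    have m1 : ∀ n : ℕ, AEStronglyMeasurable
        (fun z => G z (ρ (T / (n + 1 : ℝ)) z / (T / (n + 1 : ℝ)))) (ν.prod β) := fun n =>
      (cG.comp (continuous_id.prodMk ((cρ _).div_const _))).aestronglyMeasurable
    have b1 : ∀ n : ℕ, ∀ᵐ z ∂ν.prod β,
        ‖G z (ρ (T / (n + 1 : ℝ)) z / (T / (n + 1 : ℝ)))‖ ≤ C := fun n => sh.mono fun z hz => by
      have p : 0 < T / (n + 1 : ℝ) := by positivity
      refine hC z _ hz ?_
      rw [abs_div, abs_of_pos p, div_le_iff₀ p]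
      exact lip z _ p.le ((div_le_self T0.le (by linarith [n.cast_nonneg (α := ℝ)])).trans T1) hz
    have l1 : ∀ᵐ z ∂ν.prod β, Tendsto
        (fun n : ℕ => G z (ρ (T / (n + 1 : ℝ)) z / (T / (n + 1 : ℝ)))) atTop
        (𝓝 (G z ‖B z.1 z.2‖)) := hB'.mono fun z hz =>
      ((cG.comp (continuous_const.prodMk continuous_id)).tendsto _).comp (hz.comp (seq T T0))
    refine ⟨.of_bound (aestronglyMeasurable_of_tendsto_ae _ m1 l1) C ?_,
      tendsto_integral_of_dominated_convergence _ m1 (integrable_const C) b1 l1⟩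
    filter_upwards [l1, ae_all_iff.2 b1] with z h1 h2
    exact le_of_tendsto' h1.norm h2
  have orth : ∀ᵐ x ∂ν, ∀ a, ‖B x a‖ = ‖a‖ := by
    obtain ⟨i1, t1⟩ := dct 1 (fun z r => ‖z.2‖ * r) one_pos le_rfl (by fun_prop)
      ⟨|L|, fun z r hz hr => by
        rw [abs_mul, abs_norm]
        exact (mul_le_of_le_one_left (abs_nonneg _) hz.le).trans (hr.trans (le_abs_self _))⟩
    have i2 := int (fun z => ‖z.2‖ ^ 2) (by fun_prop)
    have k1 : ∫ z, ‖z.2‖ ^ 2 ∂ν.prod β ≤ ∫ z, ‖z.2‖ * ‖B z.1 z.2‖ ∂ν.prod β :=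
      ge_of_tendsto' t1 fun n => by
        have p : 0 < 1 / (n + 1 : ℝ) := by positivity
        simp only [← mul_div_assoc]
        rw [integral_div, le_div_iff₀' p]
        exact lo _ p.le
    have i3 := i2.sub i1
    have k2 : ∫ x, ∫ a, (‖a‖ ^ 2 - ‖a‖ * ‖B x a‖) ∂β ∂ν ≤ 0 := by
      have := integral_prod _ i3
      simp only [Pi.sub_apply] at this
      rw [← this, integral_sub i2 i1]
      linarith
    have ib : ∀ u : V → ℝ, Continuous u → Integrable u β := fun u hu =>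
      (hu.continuousOn.integrableOn_compact (isCompact_closedBall (0 : V) 1)).mono_set
        ball_subset_closedBall
    have k3 : ∀ x, (∫ a, ‖a‖ ^ 2 ∂β - ∫ a, ‖B x a‖ ^ 2 ∂β) / 2 ≤
        ∫ a, (‖a‖ ^ 2 - ‖a‖ * ‖B x a‖) ∂β := fun x => by
      rw [← integral_sub (ib _ (by fun_prop)) (ib _ (by fun_prop)), ← integral_div]
      exact integral_mono (ib _ (by fun_prop)) (ib _ (by fun_prop)) fun a => by
        nlinarith [sq_nonneg (‖a‖ - ‖B x a‖)]
    have k4 : 0 ≤ᵐ[ν] fun x => ∫ a, (‖a‖ ^ 2 - ‖a‖ * ‖B x a‖) ∂β := hB.mono fun x hx => by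
      refine le_trans ?_ (k3 x)
      rcases hx.2 with h1 | h1
      · simp only [Pi.zero_apply]
        linarith
      · simp [h1]
    have k5 := (integral_eq_zero_iff_of_nonneg_ae k4 i3.integral_prod_left).1
      (le_antisymm k2 (integral_nonneg_of_ae k4))
    filter_upwards [hB, k5] with x h1 h2
    refine h1.2.resolve_left fun h3 => ?_
    have := k3 x
    simp only [Pi.zero_apply] at h2
    linarith
  -- the upper bound
  have up : ∀ T, 0 < T → ∀ᵐ z ∂ν.prod β, ρ T z ≤ T * ‖z.2‖ := by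
    have cf : ∀ t, Continuous fun z : V × V => max (ρ t z - t * ‖z.2‖) 0 := fun t =>
      ((cρ t).sub (continuous_const.mul cn)).max continuous_const
    have s1 := sub (fun t z => max (ρ t z - t * ‖z.2‖) 0) cf
      (fun t γ z => by rw [iρ, nρ]) (fun s t z => by
        have := sρ s t z
        rw [j.norm]
        refine max_le ?_ (add_nonneg (le_max_right _ _) (le_max_right _ _))
        nlinarith [le_max_left (ρ s z - s * ‖z.2‖) 0,
          le_max_left (ρ t (m.Z s z) - t * ‖z.2‖) 0])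
    have one : ∀ T, 0 < T → T ≤ 1 → ∫ z, max (ρ T z - T * ‖z.2‖) 0 ∂ν.prod β ≤ 0 := by
      intro T T0 T1
      obtain ⟨-, t1⟩ := dct T (fun z r => T * max (r - ‖z.2‖) 0) T0 T1 (by fun_prop)
        ⟨T * |L|, fun z r _ hr => by
          rw [abs_mul, abs_of_pos T0, abs_of_nonneg (le_max_right _ _)]
          refine mul_le_mul_of_nonneg_left (max_le ?_ (abs_nonneg _)) T0.le
          linarith [le_abs_self r, le_abs_self L, norm_nonneg z.2]⟩
      have e0 : ∫ z, T * max (‖B z.1 z.2‖ - ‖z.2‖) 0 ∂ν.prod β = 0 :=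
        integral_eq_zero_of_ae ((Measure.quasiMeasurePreserving_fst.ae orth).mono fun z hz => by
          simp [hz z.2])
      rw [e0] at t1
      refine ge_of_tendsto' t1 fun n => ?_
      have p : 0 < T / (n + 1 : ℝ) := by positivity
      have := s1 _ p.le n
      rw [mul_div_cancel₀ _ (by positivity), ← integral_const_mul] at this
      refine this.trans_eq (integral_congr_ae (.of_forall fun z => ?_))
      have q : (0 : ℝ) < n + 1 := by positivity
      simp only [mul_max_of_nonneg _ _ T0.le, mul_max_of_nonneg _ _ q.le, mul_zero]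
      congr 1
      field_simp
    intro T T0
    obtain ⟨n, hn⟩ := exists_nat_gt T
    have p : 0 < T / (n + 1 : ℝ) := by positivity
    have := s1 _ p.le n
    rw [mul_div_cancel₀ _ (by positivity)] at this
    have k := this.trans (mul_nonpos_of_nonneg_of_nonpos (by positivity)
      (one _ p ((div_le_one (by positivity)).2 (by linarith))))
    have nn : 0 ≤ fun z : V × V => max (ρ T z - T * ‖z.2‖) 0 := fun z => le_max_right _ _
    refine ((integral_eq_zero_iff_of_nonneg nn (int _ (cf T))).1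
      (le_antisymm k (integral_nonneg nn))).mono fun z hz => ?_
    have := le_max_left (ρ T z - T * ‖z.2‖) 0
    simp only [Pi.zero_apply] at hz
    linarith
  by_cases ha : a = 0
  · have := j.scale 1 0 x 0
    rw [zero_smul, zero_mul, h.zero] at this
    rw [ha, this, norm_zero]
    exact z0 x
  have n0 : 0 < ‖a‖ := norm_pos_iff.2 ha
  have cf : Continuous fun z : V × V => ‖z.2‖ * (2 * ‖a‖ * ‖z.2‖ - ρ (2 * ‖a‖) z) :=
    cn.mul ((continuous_const.mul cn).sub (cρ _))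
  have nn : 0 ≤ᵐ[ν.prod β] fun z : V × V => ‖z.2‖ * (2 * ‖a‖ * ‖z.2‖ - ρ (2 * ‖a‖) z) :=
    (up _ (by positivity)).mono fun z hz => mul_nonneg (norm_nonneg _) (sub_nonneg.2 hz)
  have k1 : ∫ z, ‖z.2‖ * (2 * ‖a‖ * ‖z.2‖ - ρ (2 * ‖a‖) z) ∂ν.prod β ≤ 0 := by
    have := lo (2 * ‖a‖) (by positivity)
    rw [← integral_const_mul, ← sub_nonpos,
      ← integral_sub (int _ (by fun_prop))
        (int (fun z => ‖z.2‖ * ρ (2 * ‖a‖) z) (cn.mul (cρ _)))] at this
    exact (integral_congr_ae (.of_forall fun z => by ring)).trans_le this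
  have k2 := (integral_eq_zero_iff_of_nonneg_ae nn (int _ cf)).1
    (le_antisymm k1 (integral_nonneg_of_ae nn))
  have op : (nu m).IsOpenPosMeasure := (withDensity_absolutelyContinuous'
    (cdet h).measurable.ennreal_ofReal.aemeasurable (.of_forall fun x =>
      (ENNReal.ofReal_pos.2 (abs_pos.2 (det_ne h x))).ne')).isOpenPosMeasure
  rw [← el, el0] at k2
  have k3 := Measure.eqOn_open_of_ae_eq (ae_restrict_of_ae_restrict_of_subset
    (Set.prod_mono interior_subset Subset.rfl) k2) (isOpen_interior.prod isOpen_ball)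
    cf.continuousOn continuousOn_const
  have n2 : ‖(2 * ‖a‖)⁻¹ • a‖ = 2⁻¹ := by
    rw [norm_smul, norm_inv, Real.norm_of_nonneg (by positivity)]
    field_simp
  have k4 := k3 (x := (x, (2 * ‖a‖)⁻¹ • a))
    ⟨mem_interior_iff_mem_nhds.2 nD, mem_ball_zero_iff.2 (by rw [n2]; norm_num)⟩
  have e := j.scale (2 * ‖a‖) (2 * ‖a‖)⁻¹ x a
  rw [inv_mul_cancel₀ (by positivity)] at e
  simp only [hρ, n2, e, Pi.zero_apply] at k4
  linarith

end Pool.Agent.MP_3ee8cb_gt.PXL
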